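import Pool.Agent.H95.Smooth

set_option autoImplicit false
open Pool.Agent.H95.SmoothDefs

universe u

theorem Pool.Agent.Results.MP_cd4dc1_an.Both.result
    (X : Type u) [NormedAddCommGroup X] [NormedSpace ℂ X] [CompleteSpace X] (hX : Smooth X)
    (J : X → (X →L[ℂ] ℂ)) (hJ : IsDualityMap J) (T : X →L[ℂ] X) (hT : SelfAdj J T) :
    StronglyNormal J (quad (‖T‖ ^ 2) (-1) T) ∧ StronglyNormal J (quad (-(minMod T ^ 2)) 1 T) :=
  Pool.Agent.H95.Smooth.main hX hJ hT
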